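import Pool.Agent.W200.MR.Stm

set_option autoImplicit false

namespace Pool.Agent.W899.MR.L2c

open Pool.Agent.W200.MR

theorem norm_ge (u : ℝ) : |u| ≤ ‖(1 : ℂ) + (u : ℂ) * Complex.I‖ := by
  have h := Complex.abs_im_le_norm ((1 : ℂ) + (u : ℂ) * Complex.I)
  simpa using h

theorem t_L2c : S_AP → S_L2c := by
  intro hAP s η A hη
  set C : ℝ := 4 + (|s| + 2) * (A + 6) with hC
  have hs0 : 0 ≤ |s| := abs_nonneg s
  have hA0 : (0 : ℝ) ≤ A := Nat.cast_nonneg A
  have hC0 : 0 < C := by positivity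
  set D : ℝ := 2 * C / η with hD
  have hD0 : 0 < D := by positivity
  refine ⟨⌈D ^ 4⌉₊ + 1, |s| + 2 / η, ?_⟩
  intro t X N hS1 ht0 htX hXN hN a b ha haA
  have hN1 : (1 : ℝ) ≤ N := by
    have : 1 ≤ N := by omega
    exact_mod_cast this
  have hND : D ^ 4 ≤ N := by
    have h1 : (⌈D ^ 4⌉₊ : ℝ) ≤ N := by
      have : ⌈D ^ 4⌉₊ ≤ N := by omega
      exact_mod_cast this
    exact (Nat.le_ceil _).trans h1
  have hap := hAP (s + t) a b N ha hN1
  rw [Nat.floor_natCast] at hap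
  have hst : 2 / η ≤ s + t := by
    have := neg_abs_le s
    linarith
  have h2η : 0 < 2 / η := by positivity
  have hst0 : 0 < s + t := by linarith
  have har : (1 : ℝ) ≤ a := by exact_mod_cast ha
  -- main term
  have hmain : ‖((N : ℝ) : ℂ) * Complex.exp ((((s + t) * Real.log (N : ℝ) : ℝ) : ℂ) * Complex.I) /
      ((a : ℂ) * (1 + ((s + t : ℝ) : ℂ) * Complex.I))‖ ≤ η / 2 * N := by
    rw [norm_div, norm_mul, norm_mul, Complex.norm_exp_ofReal_mul_I, mul_one,
      Complex.norm_real, Complex.norm_natCast, Real.norm_of_nonneg (by linarith)]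
    have hg := norm_ge (s + t)
    rw [abs_of_pos hst0] at hg
    have hg2 : 2 / η ≤ (a : ℝ) * ‖(1 : ℂ) + ((s + t : ℝ) : ℂ) * Complex.I‖ := by
      nlinarith [norm_nonneg ((1 : ℂ) + ((s + t : ℝ) : ℂ) * Complex.I)]
    rw [div_le_iff₀ (lt_of_lt_of_le h2η hg2)]
    have h5 : η / 2 * N * (2 / η) = N := by
      field_simp
    have h6 : η / 2 * N * (2 / η) ≤
        η / 2 * N * ((a : ℝ) * ‖(1 : ℂ) + ((s + t : ℝ) : ℂ) * Complex.I‖) :=
      mul_le_mul_of_nonneg_left hg2 (by positivity)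
    linarith
  -- error term
  set u : ℝ := Real.sqrt (Real.sqrt N) with hu
  have hu0 : 0 ≤ u := Real.sqrt_nonneg _
  have hu2 : u ^ 2 = Real.sqrt N := Real.sq_sqrt (Real.sqrt_nonneg _)
  have hu4 : u ^ 4 = N := by
    have : u ^ 4 = (u ^ 2) ^ 2 := by ring
    rw [this, hu2, Real.sq_sqrt (by linarith)]
  have hu1 : 1 ≤ u := by
    by_contra hlt
    rw [not_le] at hlt
    have : u ^ 4 < 1 := pow_lt_one₀ hu0 hlt (by norm_num)
    linarith
  have huD : D ≤ u := by
    by_contra hlt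
    rw [not_le] at hlt
    have : u ^ 4 < D ^ 4 := pow_lt_pow_left₀ hlt hu0 (by norm_num)
    linarith
  have hlog : Real.log N ≤ 4 * u := by
    have h1 : Real.log N = 4 * Real.log u := by
      rw [← hu4, Real.log_pow]
      norm_num
    rw [h1]
    have h2 := Real.log_le_sub_one_of_pos (x := u) (by linarith)
    linarith
  have hlog0 : 0 ≤ Real.log N := Real.log_nonneg hN1
  have hst2 : |s + t| ≤ |s| + 2 * u ^ 2 := by
    rw [hu2]
    have h1 : Real.sqrt X ≤ Real.sqrt N := Real.sqrt_le_sqrt (by exact_mod_cast hXN)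
    calc |s + t| ≤ |s| + |t| := abs_add_le s t
      _ = |s| + t := by rw [abs_of_nonneg ht0]
      _ ≤ |s| + 2 * Real.sqrt N := by linarith
  have haA' : (a : ℝ) ≤ A := by exact_mod_cast haA
  have herr : 4 + |s + t| * ((a : ℝ) + 2 + Real.log N) ≤ η / 2 * N := by
    have h1 : |s + t| * ((a : ℝ) + 2 + Real.log N) ≤
        (|s| + 2 * u ^ 2) * ((A : ℝ) + 2 + 4 * u) :=
      mul_le_mul hst2 (by linarith) (by positivity) (by positivity)
    have h2 : |s| + 2 * u ^ 2 ≤ (|s| + 2) * u ^ 2 := by nlinarith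
    have h3 : (A : ℝ) + 2 + 4 * u ≤ (A + 6) * u := by nlinarith
    have h4 : (|s| + 2 * u ^ 2) * ((A : ℝ) + 2 + 4 * u) ≤
        ((|s| + 2) * u ^ 2) * ((A + 6) * u) :=
      mul_le_mul h2 h3 (by positivity) (by positivity)
    have h5 : (4 : ℝ) ≤ 4 * u ^ 3 := by
      have : 1 ≤ u ^ 3 := one_le_pow₀ hu1
      linarith
    have h6 : 4 + |s + t| * ((a : ℝ) + 2 + Real.log N) ≤ C * u ^ 3 := by
      have e : C * u ^ 3 = 4 * u ^ 3 + ((|s| + 2) * u ^ 2) * ((A + 6) * u) := by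
        rw [hC]
        ring
      rw [e]
      linarith
    refine h6.trans ?_
    rw [← hu4]
    have h7 : C = η / 2 * D := by
      rw [hD]
      field_simp
    rw [h7]
    have h8 : 0 ≤ η / 2 * u ^ 3 := by positivity
    nlinarith
  have hfin := norm_sub_norm_le (SA (s + t) a b N)
    (((N : ℝ) : ℂ) * Complex.exp ((((s + t) * Real.log (N : ℝ) : ℝ) : ℂ) * Complex.I) /
      ((a : ℂ) * (1 + ((s + t : ℝ) : ℂ) * Complex.I)))
  linarith

end Pool.Agent.W899.MR.L2c
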